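import Pool.Agent.helper60.DA.SpecJ

set_option autoImplicit false

namespace Pool.Agent.helper60.DA

open Polynomial Finset Pool.Agent.helper60.DK

theorem BN_pow {S : Type*} [CommRing S] (a e : S) (he : e * e = 0) (k : ℕ) :
    (a + e) ^ (k + 1) = a ^ (k + 1) + ((k + 1 : ℕ) : S) * (a ^ k * e) := by
  induction k with
  | zero => simp
  | succ k ih =>
    rw [pow_succ, ih]
    push_cast
    have : (a ^ (k + 1) + ((k : S) + 1) * (a ^ k * e)) * (a + e) =
        a ^ (k + 1 + 1) + ((k : S) + 1 + 1) * (a ^ (k + 1) * e) + ((k : S) + 1) * a ^ k * (e * e) := by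
      ring
    rw [this, he, mul_zero, add_zero]

theorem BN_sq (p : ℕ) : ((p : ZMod (p ^ 2))) * (p : ZMod (p ^ 2)) = 0 := by
  have : ((p ^ 2 : ℕ) : ZMod (p ^ 2)) = 0 := ZMod.natCast_self _
  push_cast at this
  rw [← this]
  ring

theorem BN_coeffA (p k m : ℕ) (hp : 0 < p) (R : Type) [CommRing R] :
    ((X ^ p + 1 : R[X]) ^ k).coeff m = if p ∣ m then ((k.choose (m / p) : ℕ) : R) else 0 := by
  have h : (X ^ p + 1 : R[X]) ^ k = expand R p ((X + 1) ^ k) := by
    rw [map_pow, map_add, expand_X, map_one]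
  rw [h, coeff_expand hp]
  by_cases hd : p ∣ m
  · rw [if_pos hd, if_pos hd, coeff_X_add_one_pow]
  · rw [if_neg hd, if_neg hd]

theorem BN_coeffB (p k m : ℕ) (hp : 0 < p) (R : Type) [CommRing R] :
    ((X ^ p + 1 : R[X]) ^ k * ph p X 1).coeff m = ∑ j ∈ Finset.Ioo 0 p,
      if j ≤ m ∧ p ∣ m - j then ((p.choose j / p : ℕ) : R) * ((k.choose ((m - j) / p) : ℕ) : R)
      else 0 := by
  unfold ph
  rw [mul_sum, finset_sum_coeff]
  refine sum_congr rfl fun j _ => ?_
  have h : (X ^ p + 1 : R[X]) ^ k * (((p.choose j / p : ℕ) : R[X]) * X ^ j * 1 ^ (p - j)) =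
      C ((p.choose j / p : ℕ) : R) * (X ^ j * (X ^ p + 1 : R[X]) ^ k) := by
    rw [one_pow, mul_one, C_eq_natCast]
    ring
  rw [h, coeff_C_mul, coeff_X_pow_mul', BN_coeffA p k _ hp]
  by_cases h1 : j ≤ m
  · by_cases h2 : p ∣ m - j
    · rw [if_pos h1, if_pos h2, if_pos ⟨h1, h2⟩]
    · rw [if_pos h1, if_neg h2, if_neg (fun h => h2 h.2), mul_zero]
  · rw [if_neg h1, if_neg (fun h => h1 h.1), mul_zero]

theorem BN_dvd {p q r j : ℕ} (hr : r < p) (hj : 0 < j) (hjp : j < p) (h1 : j ≤ q * p + r)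
    (h2 : p ∣ q * p + r - j) : r = j := by
  obtain ⟨t, ht⟩ := h2
  have h3 : q * p + r = p * t + j := by omega
  have h4 : (q * p + r) % p = (p * t + j) % p := by rw [h3]
  rw [Nat.mul_add_mod, Nat.mod_eq_of_lt hjp, mul_comm q p, Nat.mul_add_mod, Nat.mod_eq_of_lt hr] at h4
  exact h4

theorem BN_pred (p : ℕ) [hp : Fact p.Prime] (j : ℕ) (hj : j < p) :
    (((p - 1).choose j : ℕ) : ZMod p) = (-1) ^ j := by
  induction j with
  | zero => simp
  | succ j ih =>
    have h1 := ih (by omega)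
    have h2 : p.choose (j + 1) = (p - 1).choose j + (p - 1).choose (j + 1) := by
      have : p = (p - 1) + 1 := by omega
      conv_lhs => rw [this]
      exact Nat.choose_succ_succ _ _
    have h3 : p ∣ p.choose (j + 1) := hp.out.dvd_choose_self (by omega) hj
    have h4 : ((p.choose (j + 1) : ℕ) : ZMod p) = 0 := (ZMod.natCast_eq_zero_iff _ _).2 h3
    rw [h2] at h4
    push_cast at h4
    rw [h1] at h4
    rw [pow_succ]
    linear_combination h4

theorem BN_quot (p : ℕ) [hp : Fact p.Prime] (r : ℕ) (hr : 0 < r) (hrp : r < p) :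
    ((p.choose r / p : ℕ) : ZMod p) = (r : ZMod p)⁻¹ * (-1) ^ (r - 1) := by
  have h1 : p ∣ p.choose r := hp.out.dvd_choose_self (by omega) hrp
  have h2 : p * (p - 1).choose (r - 1) = p.choose r * r := by
    have := Nat.add_one_mul_choose_eq (p - 1) (r - 1)
    have e1 : p - 1 + 1 = p := by omega
    have e2 : r - 1 + 1 = r := by omega
    rw [e1, e2] at this
    exact this
  obtain ⟨t, ht⟩ := h1
  have h3 : p.choose r / p = t := by
    rw [ht]
    exact Nat.mul_div_cancel_left t hp.out.pos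
  rw [h3]
  rw [ht] at h2
  have h4 : (p - 1).choose (r - 1) = t * r := by
    have := Nat.eq_of_mul_eq_mul_left hp.out.pos (h2.trans (mul_assoc p t r))
    exact this
  have h5 := BN_pred p (r - 1) (by omega)
  rw [h4] at h5
  push_cast at h5
  have hr0 : (r : ZMod p) ≠ 0 := by
    rw [Ne, ZMod.natCast_eq_zero_iff]
    intro h
    exact absurd (Nat.le_of_dvd hr h) (by omega)
  rw [← h5]
  field_simp

theorem BN : BN_stmt := by
  intro p hp _ N q hN
  have hp0 := hp.out.pos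
  obtain ⟨k, rfl⟩ : ∃ k, N = k + 1 := ⟨N - 1, by omega⟩
  have hph : (p : (ZMod (p ^ 2))[X]) * ph p X 1 = (X + 1) ^ p - X ^ p - 1 ^ p := ph_spec p X 1
  have he : ((p : (ZMod (p ^ 2))[X]) * ph p X 1) * ((p : (ZMod (p ^ 2))[X]) * ph p X 1) = 0 := by
    have h1 : (p : (ZMod (p ^ 2))[X]) * (p : (ZMod (p ^ 2))[X]) = 0 := by
      rw [← C_eq_natCast, ← C_mul, BN_sq, C_0]
    linear_combination (ph p X 1 * ph p X 1) * h1
  have hmain : (X + 1 : (ZMod (p ^ 2))[X]) ^ ((k + 1) * p) = (X ^ p + 1) ^ (k + 1) +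
      C (((k + 1 : ℕ) : ZMod (p ^ 2)) * (p : ZMod (p ^ 2))) * ((X ^ p + 1) ^ k * ph p X 1) := by
    have h1 : (X + 1 : (ZMod (p ^ 2))[X]) ^ p = (X ^ p + 1) + (p : (ZMod (p ^ 2))[X]) * ph p X 1 := by
      rw [hph, one_pow]
      ring
    rw [mul_comm (k + 1) p, pow_mul, h1, BN_pow _ _ he, C_mul, C_eq_natCast, C_eq_natCast]
    ring
  have hco : ∀ m, ((((k + 1) * p).choose m : ℕ) : ZMod (p ^ 2)) =
      (if p ∣ m then (((k + 1).choose (m / p) : ℕ) : ZMod (p ^ 2)) else 0) +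
      ((k + 1 : ℕ) : ZMod (p ^ 2)) * (p : ZMod (p ^ 2)) * ∑ j ∈ Finset.Ioo 0 p,
        if j ≤ m ∧ p ∣ m - j then ((p.choose j / p : ℕ) : ZMod (p ^ 2)) *
          ((k.choose ((m - j) / p) : ℕ) : ZMod (p ^ 2)) else 0 := by
    intro m
    have h1 := congrArg (fun P => P.coeff m) hmain
    simp only [coeff_add, coeff_C_mul] at h1
    rw [coeff_X_add_one_pow, BN_coeffA p _ _ hp0, BN_coeffB p _ _ hp0] at h1
    exact h1
  constructor
  · rw [hco, if_pos (dvd_mul_left p q), Nat.mul_div_cancel _ hp0, Finset.sum_eq_zero, mul_zero,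
      add_zero]
    intro j hj
    have hj' := mem_Ioo.1 hj
    rw [if_neg]
    rintro ⟨h1, h2⟩
    have := BN_dvd (q := q) (r := 0) hp0 hj'.1 hj'.2 h1 h2
    omega
  · intro r hr hrp
    have hnd : ¬ p ∣ q * p + r := by
      intro h
      have : p ∣ r := (Nat.dvd_add_right (dvd_mul_left p q)).1 h
      exact absurd (Nat.le_of_dvd hr this) (by omega)
    rw [hco, if_neg hnd, zero_add, Finset.sum_eq_single r]
    · rw [if_pos ⟨by omega, by rw [Nat.add_sub_cancel]; exact dvd_mul_left p q⟩, Nat.add_sub_cancel,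
        Nat.mul_div_cancel _ hp0]
      have h1 : ((k + 1 : ℕ) : ZMod (p ^ 2)) * (p : ZMod (p ^ 2)) *
          (((p.choose r / p : ℕ) : ZMod (p ^ 2)) * ((k.choose q : ℕ) : ZMod (p ^ 2))) =
          (p : ZMod (p ^ 2)) * (((k + 1 : ℕ) : ZMod (p ^ 2)) *
          ((p.choose r / p : ℕ) : ZMod (p ^ 2)) * ((k.choose q : ℕ) : ZMod (p ^ 2))) := by ring
      rw [h1, p_mul, map_mul, map_mul, rd_natCast, rd_natCast, rd_natCast, BN_quot p r hr hrp,
        Nat.add_sub_cancel, ← mul_assoc ((k + 1 : ℕ) : ZMod p)]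
    · intro j hj hne
      have hj' := mem_Ioo.1 hj
      rw [if_neg]
      rintro ⟨h1, h2⟩
      exact hne (BN_dvd hrp hj'.1 hj'.2 h1 h2).symm
    · intro h
      exact absurd (mem_Ioo.2 ⟨hr, hrp⟩) h

end Pool.Agent.helper60.DA
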