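import Pool.Agent.helper60.DA.SpecV

set_option autoImplicit false

namespace Pool.Agent.helper60.DA

open Polynomial Finset Pool.Agent.helper60.DK

theorem HW_zero {R : Type} [CommRing R] (d : ℕ) : hm d (0 : R[X]) = 0 := by
  unfold hm
  refine Finset.sum_eq_zero fun i _ => ?_
  rw [coeff_zero, C_0, zero_mul]

theorem HW_sum (hHM : HM_stmt) {R : Type} [CommRing R] (d : ℕ) {ι : Type} (s : Finset ι)
    (f : ι → R[X]) : hm d (∑ i ∈ s, f i) = ∑ i ∈ s, hm d (f i) := by
  classical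
  induction s using Finset.induction_on with
  | empty => rw [Finset.sum_empty, Finset.sum_empty, HW_zero]
  | insert i s hi ih => rw [Finset.sum_insert hi, Finset.sum_insert hi, (hHM R).2.1, ih]

theorem HW_one {R : Type} [CommRing R] (k : ℕ) : hm k (1 : R[X]) = (4 - X ^ 2) ^ k := by
  unfold hm
  rw [Finset.sum_eq_single 0]
  · rw [coeff_one, if_pos rfl, C_1, pow_zero, Nat.sub_zero, one_mul, one_mul]
  · intro i _ hi
    rw [coeff_one, if_neg hi, C_0, zero_mul]
  · intro h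
    exact absurd (mem_range.2 (Nat.succ_pos k)) h

theorem HW_X (hHM : HM_stmt) {R : Type} [CommRing R] (k : ℕ) :
    hm k ((X : R[X]) ^ k) = (X ^ 2 - 1) ^ k := by
  induction k with
  | zero => rw [pow_zero, HW_one, pow_zero, pow_zero]
  | succ k ih =>
    rw [pow_succ (X : R[X]) k, (hHM R).1 k 1 _ _ (natDegree_X_pow_le k) natDegree_X_le, ih,
      (hHM R).2.2.2.1.1]
    exact (pow_succ _ _).symm

theorem HW_1X (hHM : HM_stmt) {R : Type} [CommRing R] (k : ℕ) :
    hm k ((1 + X : R[X]) ^ k) = 3 ^ k := by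
  induction k with
  | zero => rw [pow_zero, HW_one, pow_zero, pow_zero]
  | succ k ih =>
    have h1 : (1 + X : R[X]).natDegree ≤ 1 :=
      natDegree_add_le_of_degree_le (by rw [natDegree_one]; exact Nat.zero_le 1) natDegree_X_le
    have h2 : ((1 + X : R[X]) ^ k).natDegree ≤ k := by
      refine natDegree_pow_le.trans ?_
      calc k * (1 + X : R[X]).natDegree ≤ k * 1 := Nat.mul_le_mul_left k h1
        _ = k := mul_one k
    rw [pow_succ, (hHM R).1 k 1 _ _ h2 h1, ih, (hHM R).2.2.2.1.2.1, pow_succ]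

theorem HW_ff (hHM : HM_stmt) (p : ℕ) [Fact p.Prime] (k : ℕ) (hk : k ≤ hh p) :
    hm (3 * hh p) (ff p k) = 3 ^ (3 * (hh p - k)) * (((X : (ZMod p)[X]) ^ 2 - 1) ^ 2 * (4 - X ^ 2)) ^ k := by
  have h1 : (1 + X : (ZMod p)[X]).natDegree ≤ 1 :=
    natDegree_add_le_of_degree_le (by rw [natDegree_one]; exact Nat.zero_le 1) natDegree_X_le
  have h2 : ((1 + X : (ZMod p)[X]) ^ (3 * (hh p - k))).natDegree ≤ 3 * (hh p - k) := by
    refine natDegree_pow_le.trans ?_
    calc 3 * (hh p - k) * (1 + X : (ZMod p)[X]).natDegree ≤ 3 * (hh p - k) * 1 :=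
          Nat.mul_le_mul_left _ h1
      _ = 3 * (hh p - k) := mul_one _
  have h3 : (X ^ (2 * k) * (1 + X : (ZMod p)[X]) ^ (3 * (hh p - k))).natDegree ≤
      2 * k + 3 * (hh p - k) :=
    natDegree_mul_le.trans (Nat.add_le_add (natDegree_X_pow_le _) h2)
  have e : 3 * hh p = (2 * k + 3 * (hh p - k)) + k := by omega
  have e2 : ff p k = (X ^ (2 * k) * (1 + X : (ZMod p)[X]) ^ (3 * (hh p - k))) * 1 := by
    rw [mul_one]
    rfl
  rw [e2]
  have e3 : hm (3 * hh p) ((X ^ (2 * k) * (1 + X : (ZMod p)[X]) ^ (3 * (hh p - k))) * 1) =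
      hm ((2 * k + 3 * (hh p - k)) + k) ((X ^ (2 * k) * (1 + X : (ZMod p)[X]) ^ (3 * (hh p - k))) * 1) := by
    rw [← e]
  rw [e3, (hHM (ZMod p)).1 _ _ _ _ h3 (by rw [natDegree_one]; exact Nat.zero_le k),
    (hHM (ZMod p)).1 _ _ _ _ (natDegree_X_pow_le _) h2, HW_X hHM, HW_1X hHM, HW_one]
  rw [mul_pow, ← pow_mul]
  ring

theorem HW (hHM : HM_stmt) : HW_stmt := by
  intro p hp h5
  have h4 : (4 : ZMod p) ≠ 0 := by
    have : (4 : ZMod p) = 2 ^ 2 := by norm_num
    rw [this]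
    exact pow_ne_zero _ (two_ne h5)
  have h16 : (16 : ZMod p) ≠ 0 := by
    have : (16 : ZMod p) = 2 ^ 4 := by norm_num
    rw [this]
    exact pow_ne_zero _ (two_ne h5)
  have hy1 : ys p * (1 + ys p) = C (-1 / 16) * (((X : (ZMod p)[X]) ^ 2 - 1) ^ 2 * (4 - X ^ 2)) := by
    have hc : (4 : (ZMod p)[X]) * C (-1 / 4 : ZMod p) = -1 := by
      have : (4 : (ZMod p)[X]) = C 4 := (C_ofNat 4).symm
      rw [this, ← C_mul, mul_div_cancel₀ _ h4, C_neg, C_1]
    have hd : (16 : (ZMod p)[X]) * C (-1 / 16 : ZMod p) = -1 := by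
      have : (16 : (ZMod p)[X]) = C 16 := (C_ofNat 16).symm
      rw [this, ← C_mul, mul_div_cancel₀ _ h16, C_neg, C_1]
    have h16' : (16 : (ZMod p)[X]) ≠ 0 := by
      have : (16 : (ZMod p)[X]) = C 16 := (C_ofNat 16).symm
      rw [this]
      exact C_ne_zero.2 h16
    apply mul_left_cancel₀ h16'
    unfold ys
    set c : (ZMod p)[X] := C (-1 / 4 : ZMod p)
    set d : (ZMod p)[X] := C (-1 / 16 : ZMod p)
    linear_combination (-(((X : (ZMod p)[X]) ^ 2 - 1) ^ 2 * (4 - X ^ 2))) * hd +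
      (4 * ((X - 1) ^ 2 * (X + 2)) + ((X - 1) ^ 2 * (X + 2)) * ((X - 1) ^ 2 * (X + 2)) * (4 * c - 1)) * hc
  have hD : Ds p ^ 2 = ∑ k ∈ range (nn p + 1), C ((cc (nn p) k : ℤ) : ZMod p) * (ys p * (1 + ys p)) ^ k := by
    have h1 := congrArg (red p) (clausen (nn p))
    have h2 : red p ((Cn (nn p)).comp (X * (1 + X))) = (red p (Cn (nn p))).comp (X * (1 + X)) := by
      show Polynomial.map _ _ = _
      rw [Polynomial.map_comp, Polynomial.map_mul, Polynomial.map_add, Polynomial.map_X,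
        Polynomial.map_one]
    have h3 : red p (Dz (nn p) ^ 2) = red p (Dz (nn p)) ^ 2 := Polynomial.map_pow _ _
    rw [h2, h3] at h1
    have h4 : Ds p ^ 2 = (red p (Dz (nn p)) ^ 2).comp (ys p) := by
      rw [pow_comp]
      rfl
    rw [h4, ← h1, comp_assoc]
    have h5 : (X * (1 + X) : (ZMod p)[X]).comp (ys p) = ys p * (1 + ys p) := by
      simp
    rw [h5]
    have h6 : red p (Cn (nn p)) = ∑ k ∈ range (nn p + 1), C ((cc (nn p) k : ℤ) : ZMod p) * X ^ k := by
      unfold Cn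
      show Polynomial.map _ _ = _
      rw [Polynomial.map_sum]
      refine sum_congr rfl fun k _ => ?_
      rw [Polynomial.map_mul, Polynomial.map_C, Polynomial.map_pow, Polynomial.map_X]
      rfl
    rw [h6, Polynomial.sum_comp]
    refine sum_congr rfl fun k _ => ?_
    simp
  rw [hD, hy1, mul_sum]
  unfold Wp
  rw [HW_sum hHM]
  refine sum_congr rfl fun k hk => ?_
  have hk' : k ≤ hh p := by
    have := nn_lt_hh (p := p) h5
    have := mem_range.1 hk
    omega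
  rw [(hHM (ZMod p)).2.2.1, HW_ff hHM p k hk']
  have e3 : (3 : (ZMod p)[X]) ^ (3 * (hh p - k)) = C (3 ^ (3 * (hh p - k))) := by
    rw [C_pow]
    rfl
  rw [e3, mul_pow (C (-1 / 16 : ZMod p)), ← C_pow, ← mul_assoc, ← C_mul, ← mul_assoc, ← mul_assoc,
    ← C_mul, ← C_mul]
  congr 2
  unfold bb
  have e4 : (3 : ZMod p) ^ (3 * hh p) = 3 ^ (3 * (hh p - k)) * 27 ^ k := by
    have : (27 : ZMod p) = 3 ^ 3 := by norm_num
    rw [this, ← pow_mul, ← pow_add]
    congr 1
    omega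
  have e5 : (-27 / 16 : ZMod p) = 27 * (-1 / 16) := by ring
  rw [e4, e5, mul_pow]
  ring

end Pool.Agent.helper60.DA
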