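import Pool.Agent.helper60.DA.SpecW

set_option autoImplicit false

namespace Pool.Agent.helper60.DA

open Polynomial Finset Pool.Agent.helper60.DK

theorem INV_rv {K F : Type} [CommRing K] [Field F] [Algebra K F] (f : K[X]) (d : ℕ)
    (hd : f.natDegree ≤ d) (x : F) (hx : x ≠ 0) (h4 : (4 : F) ≠ 0) :
    aeval x (rv d f) = (4 * x) ^ d * aeval (1 / (4 * x)) f := by
  have h4x : (4 * x) ≠ 0 := mul_ne_zero h4 hx
  unfold rv
  rw [map_sum, aeval_eq_sum_range' (Nat.lt_succ_of_le hd), mul_sum]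
  refine sum_congr rfl fun i hi => ?_
  have hi' : i ≤ d := Nat.lt_succ_iff.1 (mem_range.1 hi)
  rw [map_mul, aeval_C, map_pow, aeval_X, map_mul, map_pow, map_ofNat, Algebra.smul_def]
  have e : (4 * x) ^ d = (4 * x) ^ (d - i) * (4 * x) ^ i := by
    rw [← pow_add, Nat.sub_add_cancel hi']
  have e2 : (4 * x) ^ i * (1 / (4 * x)) ^ i = 1 := by
    rw [← mul_pow, mul_one_div_cancel h4x, one_pow]
  rw [e]
  calc (algebraMap K F) (f.coeff i) * 4 ^ (d - i) * x ^ (d - i)
      = (algebraMap K F) (f.coeff i) * (4 * x) ^ (d - i) * 1 := by rw [mul_pow]; ring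
    _ = (algebraMap K F) (f.coeff i) * (4 * x) ^ (d - i) * ((4 * x) ^ i * (1 / (4 * x)) ^ i) := by
        rw [e2]
    _ = _ := by ring

theorem INV_red (p : ℕ) (d : ℕ) (f : ℤ[X]) : red p (rv d f) = rv d (red p f) := by
  unfold rv
  show Polynomial.map _ _ = _
  rw [Polynomial.map_sum]
  refine sum_congr rfl fun i _ => ?_
  rw [Polynomial.map_mul, Polynomial.map_C, Polynomial.map_pow, Polynomial.map_X, map_mul, map_pow,
    coeff_map, map_ofNat]

theorem INV_pt (p : ℕ) [Fact p.Prime] (h5 : 5 ≤ p) (F : Type) [Field F] [CharP F p]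
    (x s : F) (hx0 : x ≠ 0) (hx1 : 1 + x ≠ 0) (hx4 : 1 + 4 * x ≠ 0) (h2 : (2 : F) ≠ 0)
    (hs : s ^ 2 * (1 + x) = 1 + 4 * x) :
    (1 + x) ^ hh p * ((4 * x) ^ (3 * hh p) * aeval (1 / (4 * x)) (Sz p)) =
      (1 + 4 * x) ^ hh p * aeval x (Sz p) := by
  have h4 : (4 : F) ≠ 0 := by
    have : (4 : F) = 2 ^ 2 := by norm_num
    rw [this]
    exact pow_ne_zero _ h2
  have h4x : 4 * x ≠ 0 := mul_ne_zero h4 hx0
  have hs0 : s ≠ 0 := by
    intro h
    rw [h] at hs
    apply hx4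
    rw [← hs]
    ring
  have hx' : 1 + 1 / (4 * x) = (1 + 4 * x) / (4 * x) := by
    field_simp
    ring
  have hx1' : 1 + 1 / (4 * x) ≠ 0 := by
    rw [hx']
    exact div_ne_zero hx4 h4x
  set y : F := -((s - 1) ^ 2 * (s + 2)) / 4 with hy
  set y' : F := -((s - 1) * (s + 2) ^ 2) / (2 * s ^ 3) with hy'
  have A1 : (s ^ 2 - 1) * (1 + x) = 3 * x := by linear_combination hs
  have A2 : (s ^ 2 - 4) * (1 + x) = -3 := by linear_combination hs
  have Y1 : 16 * (y * (1 + y)) = (s ^ 2 - 1) ^ 2 * (s ^ 2 - 4) := by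
    have e1 : 4 * y = -((s - 1) ^ 2 * (s + 2)) := by
      rw [hy]
      field_simp
    linear_combination (4 * (1 + y) - (s - 1) ^ 2 * (s + 2)) * e1
  have Y2 : 4 * s ^ 6 * (y' * (1 + y')) = -((s ^ 2 - 1) * (s ^ 2 - 4) ^ 2) := by
    have e1 : 2 * s ^ 3 * y' = -((s - 1) * (s + 2) ^ 2) := by
      rw [hy']
      field_simp
    linear_combination (2 * s ^ 3 * (1 + y') - (s - 1) * (s + 2) ^ 2) * e1
  have E1 : 16 * (1 + x) ^ 3 * (y * (1 + y)) = -27 * x ^ 2 := by
    calc 16 * (1 + x) ^ 3 * (y * (1 + y)) = (16 * (y * (1 + y))) * (1 + x) ^ 3 := by ring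
      _ = ((s ^ 2 - 1) * (1 + x)) ^ 2 * ((s ^ 2 - 4) * (1 + x)) := by rw [Y1]; ring
      _ = -27 * x ^ 2 := by rw [A1, A2]; ring
  have E2 : 16 * (1 + 1 / (4 * x)) ^ 3 * (y' * (1 + y')) = -27 * (1 / (4 * x)) ^ 2 := by
    have e3 : 4 * (1 + 4 * x) ^ 3 * (y' * (1 + y')) = -27 * x := by
      calc 4 * (1 + 4 * x) ^ 3 * (y' * (1 + y'))
          = (4 * s ^ 6 * (y' * (1 + y'))) * (1 + x) ^ 3 := by rw [← hs]; ring
        _ = -(((s ^ 2 - 1) * (1 + x)) * ((s ^ 2 - 4) * (1 + x)) ^ 2) := by rw [Y2]; ring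
        _ = -27 * x := by rw [A1, A2]; ring
    rw [hx', div_pow, div_pow, one_pow]
    have h64 : (4 * x) ^ 3 ≠ 0 := pow_ne_zero _ h4x
    have h16 : (4 * x) ^ 2 ≠ 0 := pow_ne_zero _ h4x
    rw [mul_div_assoc', div_mul_eq_mul_div, mul_one_div, div_eq_div_iff h64 h16]
    linear_combination (4 * (4 * x) ^ 2) * e3
  have W1 := WF p F h5 x y hx1 E1
  have W2 := WF p F h5 (1 / (4 * x)) y' hx1' E2
  have M := me p F h5 s hs0
  have hp := two_hh (p := p) h5
  have e5 : s ^ (p - 1) = (s ^ 2) ^ hh p := by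
    rw [← pow_mul]
    congr 1
    omega
  have e6 : (s ^ 2) = (1 + 4 * x) / (1 + x) := by
    rw [eq_div_iff hx1]
    exact hs
  rw [W1, W2, ← hy', ← hy] at *
  rw [← M, e5, e6, hx', div_pow, div_pow]
  set D : F := aeval y' (Dz (nn p))
  have e7 : (1 + x) ^ (3 * hh p) = (1 + x) ^ hh p * ((1 + x) ^ hh p) ^ 2 := by
    rw [← pow_mul, ← pow_add]
    congr 1
    ring
  have e8 : (1 + 4 * x) ^ (3 * hh p) = (1 + 4 * x) ^ hh p * ((1 + 4 * x) ^ hh p) ^ 2 := by
    rw [← pow_mul, ← pow_add]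
    congr 1
    ring
  have h7 : (1 + x) ^ hh p ≠ 0 := pow_ne_zero _ hx1
  have h8 : (4 * x) ^ (3 * hh p) ≠ 0 := pow_ne_zero _ h4x
  rw [e7, e8]
  field_simp

theorem INV_key (p : ℕ) [Fact p.Prime] (h5 : 5 ≤ p) (F : Type) [Field F] [Algebra (ZMod p) F]
    [IsAlgClosed F] : (1 + X) ^ hh p * rv (3 * hh p) (Wp p) = Pp p := by
  haveI : CharP F p := charP_of_injective_algebraMap (algebraMap (ZMod p) F).injective p
  have h2 : (2 : F) ≠ 0 := by
    have := (map_ne_zero (algebraMap (ZMod p) F)).2 (two_ne (p := p) h5)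
    rwa [map_ofNat] at this
  have h4 : (4 : F) ≠ 0 := by
    have : (4 : F) = 2 ^ 2 := by norm_num
    rw [this]
    exact pow_ne_zero _ h2
  have hSW : ∀ x : F, aeval x (Sz p) = aeval x (Wp p) := by
    intro x
    have e1 : aeval x (Sz p) = aeval x (red p (Sz p)) := by
      rw [red, aeval_def, aeval_def, eval₂_map]
      congr 1
      exact RingHom.ext_int _ _
    rw [e1, S_eq_W h5]
  have key : ∀ x : F, x ≠ 0 → 1 + x ≠ 0 → 1 + 4 * x ≠ 0 →
      aeval x ((1 + X) ^ hh p * rv (3 * hh p) (Wp p)) = aeval x (Pp p) := by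
    intro x hx0 hx1 hx4
    obtain ⟨s, hs⟩ := IsAlgClosed.exists_pow_nat_eq ((1 + 4 * x) / (1 + x)) (n := 2) (by norm_num)
    rw [eq_div_iff hx1] at hs
    have h := INV_pt p h5 F x s hx0 hx1 hx4 h2 hs
    rw [hSW, hSW] at h
    unfold Pp
    rw [map_mul, map_mul, map_pow, map_pow, INV_rv _ _ (natDegree_Wp (p := p) h5) x hx0 h4,
      map_add, map_add, map_mul, map_one, aeval_X, map_ofNat]
    exact h
  have hinj : Function.Injective (Polynomial.map (algebraMap (ZMod p) F)) :=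
    Polynomial.map_injective _ (algebraMap (ZMod p) F).injective
  apply hinj
  refine Polynomial.eq_of_infinite_eval_eq _ _ ?_
  haveI : Infinite F := IsAlgClosed.instInfinite
  have hfin : ({0, -1, -(1 / 4)} : Set F).Finite := Set.toFinite _
  refine Set.Infinite.mono ?_ (hfin.infinite_compl)
  intro x hx
  rw [Set.mem_compl_iff, Set.mem_insert_iff, Set.mem_insert_iff, Set.mem_singleton_iff] at hx
  have hx0 : x ≠ 0 := fun h => hx (Or.inl h)
  have hx1 : 1 + x ≠ 0 := fun h => hx (Or.inr (Or.inl (by linear_combination h)))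
  have hx4 : 1 + 4 * x ≠ 0 := fun h => hx (Or.inr (Or.inr (by
    have e : 4 * x = 4 * -(1 / 4) := by
      rw [mul_neg, mul_one_div_cancel h4]
      linear_combination h
    exact mul_left_cancel₀ h4 e)))
  have h := key x hx0 hx1 hx4
  rw [aeval_def, aeval_def, ← eval_map, ← eval_map] at h
  exact h

theorem INV (hST : ST_stmt) : INV_stmt := by
  intro p hp h5
  have hSt : red p (St p) = Wp p := by
    obtain ⟨Z, hZ⟩ := hST p h5
    have h1 := congrArg (red p) hZ
    rw [S_eq_W h5] at h1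
    rw [h1]
    show _ = Polynomial.map _ _
    rw [Polynomial.map_add, Polynomial.map_mul, Polynomial.map_C]
    have : (Int.castRingHom (ZMod p)) ((p : ℤ) ^ 2) = 0 := by
      rw [map_pow, map_natCast, ZMod.natCast_self, zero_pow (by norm_num)]
    rw [this, C_0, zero_mul, add_zero]
  have h4Z : ((1 + 4 * X : ℤ[X]).map (Int.castRingHom (ZMod p))) = 1 + 4 * X := by
    rw [Polynomial.map_add, Polynomial.map_mul, Polynomial.map_one, Polynomial.map_X,
      Polynomial.map_ofNat]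
  have h1Z : ((1 + X : ℤ[X]).map (Int.castRingHom (ZMod p))) = 1 + X := by
    rw [Polynomial.map_add, Polynomial.map_one, Polynomial.map_X]
  constructor
  · have hN : (Nz p).map (Int.castRingHom (ZMod p)) = rv (3 * hh p) (Wp p) := by
      unfold Nz
      exact (INV_red p _ _).trans (by rw [hSt])
    have hL : red p ((1 + X) ^ hh p * Nz p) = (1 + X) ^ hh p * rv (3 * hh p) (Wp p) := by
      show Polynomial.map _ _ = _
      rw [Polynomial.map_mul, Polynomial.map_pow, h1Z, hN]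
    rw [hL]
    exact INV_key p h5 (AlgebraicClosure (ZMod p))
  · show Polynomial.map _ _ = _
    rw [Polynomial.map_mul, Polynomial.map_pow, h4Z]
    unfold Pp
    rw [← hSt]

end Pool.Agent.helper60.DA
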